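import Mathlib
import Pool.Agent.Helper3_PPX.Stmts

/-! # Squad PPX: module ULT -/

set_option autoImplicit false

universe u v

namespace Pool.Agent.PPX.H48

open MvPolynomial Filter

section

variable {k : Type u} [Field k] {N₁ N₂ : ℕ} {ι : Type*} (U : Ultrafilter ι)
  (p : ι → Ideal (P4 k)) (G : ι → Set (Fin N₁ × Fin N₂ × Ideal (Polynomial k)))

/-- the limit of the ideals -/
def limI : Ideal (P4 k) where
  carrier := {Q | ∀ᶠ x in (U : Filter ι), Q ∈ p x}
  add_mem' := by
    intro Q Q' h h'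
    filter_upwards [h, h'] with x hx hx'
    exact (p x).add_mem hx hx'
  zero_mem' := Eventually.of_forall (fun x => (p x).zero_mem)
  smul_mem' := by
    intro c Q h
    filter_upwards [h] with x hx
    exact (p x).mul_mem_left c hx

/-- the limit of the values -/
def limD (i : Fin N₁) (j : Fin N₂) : Ideal (Polynomial k) where
  carrier := {q | ∀ᶠ x in (U : Filter ι), ∀ I, (i, j, I) ∈ G x → q ∈ I}
  add_mem' := by
    intro Q Q' h h'
    filter_upwards [h, h'] with x hx hx' I hI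
    exact I.add_mem (hx I hI) (hx' I hI)
  zero_mem' := Eventually.of_forall (fun x I _ => I.zero_mem)
  smul_mem' := by
    intro c Q h
    filter_upwards [h] with x hx I hI
    exact I.mul_mem_left c (hx I hI)

theorem mem_limI (Q : P4 k) : Q ∈ limI U p ↔ ∀ᶠ x in (U : Filter ι), Q ∈ p x := Iff.rfl

theorem mem_limD (i : Fin N₁) (j : Fin N₂) (q : Polynomial k) :
    q ∈ limD U G i j ↔ ∀ᶠ x in (U : Filter ι), ∀ I, (i, j, I) ∈ G x → q ∈ I := Iff.rfl

end

theorem ult : UltStmt.{u} := by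
  intro k _ N₁ N₂ a s b t K₀ M₀ h
  classical
  set ι := {x : Ideal (P4 k) × Set (Fin N₁ × Fin N₂ × Ideal (Polynomial k)) //
    IsDat a s b t K₀ M₀ x.1 x.2} with hι
  -- the filter
  let S : {F : MvPolynomial (Fin 2) k // F ≠ 0} → Set ι := fun F => {x | inc F.1 ∉ x.1.1}
  have hS : ∀ F, (S F).Nonempty := by
    intro F
    obtain ⟨p, G, hd, hF⟩ := h F.1 F.2
    exact ⟨⟨(p, G), hd⟩, hF⟩
  have hSS : ∀ F F' : {F : MvPolynomial (Fin 2) k // F ≠ 0},
      ∃ F'' : {F : MvPolynomial (Fin 2) k // F ≠ 0}, S F'' ⊆ S F ∩ S F' := by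
    intro F F'
    refine ⟨⟨F.1 * F'.1, mul_ne_zero F.2 F'.2⟩, ?_⟩
    intro x hx
    refine ⟨fun h1 => hx ?_, fun h1 => hx ?_⟩
    · show inc (F.1 * F'.1) ∈ x.1.1
      rw [map_mul]; exact Ideal.mul_mem_right _ _ h1
    · show inc (F.1 * F'.1) ∈ x.1.1
      rw [map_mul]; exact Ideal.mul_mem_left _ _ h1
  haveI : Nonempty {F : MvPolynomial (Fin 2) k // F ≠ 0} := ⟨⟨1, one_ne_zero⟩⟩
  haveI hne : NeBot (⨅ F, 𝓟 (S F)) := by
    refine iInf_neBot_of_directed' ?_ (fun F => principal_neBot_iff.2 (hS F))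
    intro F F'
    obtain ⟨F'', hF''⟩ := hSS F F'
    exact ⟨F'', principal_mono.2 (hF''.trans Set.inter_subset_left),
      principal_mono.2 (hF''.trans Set.inter_subset_right)⟩
  let U : Ultrafilter ι := Ultrafilter.of (⨅ F, 𝓟 (S F))
  have hU : ∀ F, ∀ᶠ x in (U : Filter ι), x ∈ S F := by
    intro F
    have h1 : S F ∈ (⨅ F, 𝓟 (S F)) := mem_iInf_of_mem F (mem_principal_self _)
    exact Ultrafilter.of_le _ h1
  refine ⟨limI U (fun x => x.1.1), limD U (fun x => x.1.2), ?_⟩
  constructor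
  · -- prime
    refine ⟨?_, ?_⟩
    · intro htop
      have h1 : (1 : P4 k) ∈ limI U (fun x : ι => x.1.1) := by rw [htop]; trivial
      rw [mem_limI] at h1
      obtain ⟨x, hx⟩ := h1.exists
      exact x.2.prime.ne_top ((Ideal.eq_top_iff_one _).2 hx)
    · intro Q Q' hQ
      rw [mem_limI] at hQ
      rw [mem_limI, mem_limI, ← Ultrafilter.eventually_or]
      filter_upwards [hQ] with x hx
      exact x.2.prime.mem_or_mem hx
  · intro F hF
    by_contra hF0
    rw [mem_limI] at hF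
    obtain ⟨x, hx1, hx2⟩ := (hF.and (hU ⟨F, hF0⟩)).exists
    exact hx2 hx1
  · intro Q hQ i j
    rw [mem_limI] at hQ
    rw [mem_limD]
    filter_upwards [hQ] with x hx I hI
    exact x.2.line Q hx (i, j, I) hI
  · intro Q hQ i j hp
    rw [mem_limI] at hQ
    rw [mem_limD]
    filter_upwards [hQ] with x hx I hI
    exact x.2.first Q hx (i, j, I) hI hp
  · intro d₁ d₂ M hadm Q hQ hl
    rw [mem_limI]
    have h1 : ∀ᶠ x in (U : Filter ι), ∀ i j, ∀ I, (i, j, I) ∈ x.1.2 →
        lin (a i) (b j) (s i) (t j) Q ∈ I := by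
      rw [eventually_all]
      intro i
      rw [eventually_all]
      intro j
      exact (mem_limD U (fun x : ι => x.1.2) i j _).1 (hl i j)
    filter_upwards [h1] with x hx
    exact x.2.count d₁ d₂ M hadm Q hQ (fun g hg => hx g.1 g.2.1 g.2.2 hg)

end Pool.Agent.PPX.H48
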